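import Pool.Agent.Lib.MP_4d8c35_co.Poly.Main

/-! A matching on nodes together with `w` slots of labels: independence number and stability. -/

namespace Pool.Agent.Lib.MP_4d8c35_co.Slot

open Finset Pool.Agent.Lib.MP_4d8c35_co.Poly

variable {N L : Type} (mem : L → N → Prop) (w : ℕ)

/-- Generating relation of the slot graph. -/
def rel : (N × Bool) ⊕ (Fin w × Bool × L) → (N × Bool) ⊕ (Fin w × Bool × L) → Prop
  | .inl x, .inl y => x.1 = y.1
  | .inl x, .inr y => x.2 = y.2.1 ∧ mem y.2.2 x.1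
  | .inr _, .inl _ => False
  | .inr x, .inr y => (x.1 = y.1 ∧ (x.2.1 = y.2.1 ∨ ¬ ∃ v, mem x.2.2 v ∧ mem y.2.2 v)) ∨
      (x.1 ≠ y.1 ∧ x.2.1 = false ∧ y.2.1 = true ∧ ∃ v, mem x.2.2 v ∧ mem y.2.2 v)

/-- The slot graph. -/
def gr : SimpleGraph ((N × Bool) ⊕ (Fin w × Bool × L)) := SimpleGraph.fromRel (rel mem w)

variable {mem w}

theorem ind_eq {I : Finset ((N × Bool) ⊕ (Fin w × Bool × L))} (hI : Ind (gr mem w) I) {x y}
    (hx : x ∈ I) (hy : y ∈ I) (h : rel mem w x y) : x = y := by
  by_contra h0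
  exact hI x hx y hy ((SimpleGraph.fromRel_adj _ _ _).2 ⟨h0, Or.inl h⟩)

variable [Fintype N]

theorem upper {I : Finset ((N × Bool) ⊕ (Fin w × Bool × L))} (hI : Ind (gr mem w) I) :
    I.card ≤ Fintype.card N + w := by
  classical
  let r : (N × Bool) ⊕ (Fin w × Bool × L) → N ⊕ Fin w → Prop := fun x y =>
    match x, y with
    | .inl x, .inl v => x.1 = v
    | .inl _, .inr _ => False
    | .inr x, .inl v => x.2.1 = false ∧ mem x.2.2 v ∧ ∃ l, .inr (x.1, true, l) ∈ I ∧ mem l v
    | .inr x, .inr i => x.1 = i ∧ (x.2.1 = true ∨ ¬ ∃ l, .inr (x.1, true, l) ∈ I)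
  have h := card_le_card_of_forall_subsingleton (s := I) (t := (univ : Finset (N ⊕ Fin w))) r
    (by
      rintro (⟨v, b⟩ | ⟨i, b, l⟩) hx
      · exact ⟨.inl v, mem_univ _, rfl⟩
      · by_cases h1 : b = true ∨ ¬ ∃ l, .inr (i, true, l) ∈ I
        · exact ⟨.inr i, mem_univ _, rfl, h1⟩
        · push Not at h1
          obtain ⟨h1, l', h2⟩ := h1
          have hb : b = false := by simpa using h1
          by_cases h3 : ∃ v, mem l v ∧ mem l' v
          · obtain ⟨v, h3, h4⟩ := h3
            exact ⟨.inl v, mem_univ _, hb, h3, l', h2, h4⟩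
          · have := ind_eq hI hx h2 (Or.inl ⟨rfl, Or.inr h3⟩)
            simp [hb] at this)
    (by
      have key : ∀ (v : N) (b : Bool) (i : Fin w) (b' : Bool) (l : L), .inl (v, b) ∈ I →
          .inr (i, b', l) ∈ I → r (.inr (i, b', l)) (.inl v) → False := by
        rintro v b i b' l h1 h2 ⟨h3, h4, l', h5, h6⟩
        cases b
        · exact absurd (ind_eq hI h1 h2 ⟨h3.symm, h4⟩) (by simp)
        · exact absurd (ind_eq hI h1 h5 ⟨rfl, h6⟩) (by simp)
      rintro (v | j) - (⟨u, b⟩ | ⟨i, b, l⟩) ⟨hx, h1⟩ (⟨u', b'⟩ | ⟨i', b', l'⟩) ⟨hy, h2⟩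
      · exact ind_eq hI hx hy (h1.trans h2.symm)
      · obtain rfl : u = v := h1
        exact (key _ _ _ _ _ hx hy h2).elim
      · obtain rfl : u' = v := h2
        exact (key _ _ _ _ _ hy hx h1).elim
      · by_cases h3 : i = i'
        · exact ind_eq hI hx hy (Or.inl ⟨h3, Or.inl (h1.1.trans h2.1.symm)⟩)
        · obtain ⟨-, -, l'', h4, h5⟩ := h2
          have := ind_eq hI hx h4 (Or.inr ⟨h3, h1.1, rfl, v, h1.2.1, h5⟩)
          simp [h3] at this
      · exact h1.elim
      · exact h1.elim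
      · exact h2.elim
      · obtain ⟨h3, h4⟩ := h1
        obtain ⟨h5, h6⟩ := h2
        obtain rfl : i = j := h3
        obtain rfl : i' = i := h5
        refine ind_eq hI hx hy (Or.inl ⟨rfl, Or.inl ?_⟩)
        cases b <;> cases b'
        · rfl
        · exact (h4.resolve_left (by simp) ⟨l', hy⟩).elim
        · exact (h6.resolve_left (by simp) ⟨l, hx⟩).elim
        · rfl)
  simpa using h

theorem lower [Fintype L] (D : Finset ((N × Bool) ⊕ (Fin w × Bool × L)))
    (c : Fin w → N) (lam : Fin w → Bool → L)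
    (hc : ∀ v, .inl (v, false) ∈ D → .inl (v, true) ∈ D → ∃ i, c i = v)
    (h1 : ∀ i b, mem (lam i b) (c i))
    (h2 : ∀ i b, .inr (i, b, lam i b) ∉ D)
    (h3 : ∀ i b v b', mem (lam i b) v → .inl (v, b') ∈ D → c i = v)
    (h4 : ∀ i j v, mem (lam i false) v → mem (lam j true) v → i = j ∧ c i = v) :
    ∃ I, Ind (gr mem w) I ∧ Disjoint I D ∧ Fintype.card N + w ≤ I.card := by
  classical
  let β : N → Bool := fun v => decide ((∃ i, mem (lam i false) v) ∨ .inl (v, false) ∈ D)
  let p : (N × Bool) ⊕ (Fin w × Bool × L) → Prop := fun x =>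
    match x with
    | .inl x => (∀ i, c i ≠ x.1) ∧ x.2 = β x.1
    | .inr x => x.2.2 = lam x.1 x.2.1
  have key : ∀ x y, p x → p y → rel mem w x y → x = y := by
    rintro (⟨u, b⟩ | ⟨i, b, l⟩) (⟨u', b'⟩ | ⟨i', b', l'⟩) p1 q1 h
    · obtain rfl : u = u' := h
      rw [show b = β u from p1.2, show b' = β u from q1.2]
    · exfalso
      obtain ⟨e1, e2⟩ := h
      obtain ⟨p1, p2⟩ := p1
      simp only [p] at p1 p2 q1 e1 e2
      subst e1 q1
      cases b
      · have : β u = true := by simp only [β, decide_eq_true_eq]; exact Or.inl ⟨i', e2⟩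
        simp [this] at p2
      · have : (∃ i, mem (lam i false) u) ∨ .inl (u, false) ∈ D := by
          simpa [β] using p2.symm
        rcases this with ⟨j, e3⟩ | e3
        · exact p1 j (h4 j i' u e3 e2).2
        · exact p1 i' (h3 i' true u false e2 e3)
    · exact h.elim
    · simp only [p] at p1 q1
      subst p1 q1
      rcases h with ⟨e1, e2 | e2⟩ | ⟨e1, e2, e3, v, e4, e5⟩
      · simp only at e1 e2
        rw [e1, e2]
      · simp only at e1 e2
        subst e1
        exact absurd ⟨c i, h1 i b, h1 i b'⟩ e2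
      · simp only at e1 e2 e3 e4 e5
        subst e2 e3
        exact absurd (h4 i i' v e4 e5).1 e1
  refine ⟨univ.filter p, ?_, ?_, ?_⟩
  · intro x hx y hy hxy
    obtain ⟨e1, e2⟩ := (SimpleGraph.fromRel_adj _ _ _).1 hxy
    rcases e2 with e2 | e2
    · exact e1 (key x y (mem_filter.1 hx).2 (mem_filter.1 hy).2 e2)
    · exact e1 (key y x (mem_filter.1 hy).2 (mem_filter.1 hx).2 e2).symm
  · refine disjoint_left.2 ?_
    rintro (⟨u, b⟩ | ⟨i, b, l⟩) hx hD
    · obtain ⟨p1, p2⟩ := (mem_filter.1 hx).2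
      simp only at p1 p2
      cases b
      · have : β u = true := by simp only [β, decide_eq_true_eq]; exact Or.inr hD
        simp [this] at p2
      · have : (∃ i, mem (lam i false) u) ∨ .inl (u, false) ∈ D := by
          simpa [β] using p2.symm
        rcases this with ⟨j, e3⟩ | e3
        · exact p1 j (h3 j false u true e3 hD)
        · obtain ⟨j, e4⟩ := hc u e3 hD
          exact p1 j e4
    · obtain rfl : l = lam i b := (mem_filter.1 hx).2
      exact h2 i b hD
  · let f : (N × Bool) ⊕ (Fin w × Bool × L) → N ⊕ Fin w := fun x =>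
      match x with
      | .inl x => .inl x.1
      | .inr x => if x.2.1 = true then .inl (c x.1) else .inr x.1
    have := card_le_card_of_surjOn (s := univ.filter p) (t := (univ : Finset (N ⊕ Fin w))) f (by
      rintro (v | i) -
      · by_cases hv : ∃ i, c i = v
        · obtain ⟨i, rfl⟩ := hv
          exact ⟨.inr (i, true, lam i true), by simp [p], by simp [f]⟩
        · push Not at hv
          exact ⟨.inl (v, β v), mem_coe.2 (mem_filter.2 ⟨mem_univ _, hv, rfl⟩), rfl⟩
      · exact ⟨.inr (i, false, lam i false), by simp [p], by simp [f]⟩)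
    simpa using this

end Pool.Agent.Lib.MP_4d8c35_co.Slot
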