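import Pool.Agent.Lib.MP_4d8c35_co.Slot.Abs

/-! Slot graphs whose labels are partial evaluation tables of a code. -/

namespace Pool.Agent.Lib.MP_4d8c35_co.Slot

open Finset Pool.Agent.Lib.MP_4d8c35_co.Poly

variable {N T F A Γ : Type} [Fintype N] [Fintype T] [Fintype F] [Fintype A] [Fintype Γ]

/-- A node lies on a label if it takes the listed values at the listed points. -/
def tab (ev : T → N → F) (l : A → T × F) (u : N) : Prop := ∀ a, ev (l a).1 u = (l a).2

theorem code [Nonempty A] [DecidableEq A] [DecidableEq Γ] (ev : T → N → F) (d k : ℕ)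
    (hdet : ∀ B : Finset T, d ≤ B.card → ∀ u v, (∀ τ ∈ B, ev τ u = ev τ v) → u = v)
    (pt : Fin k → Bool → A → Γ)
    (hp1 : ∀ i, d ≤ (univ.image (pt i false) ∪ univ.image (pt i true)).card)
    (hp2 : ∀ i j, i ≠ j → ∃ a a', pt i false a = pt j true a')
    (hw : k ≤ Fintype.card N)
    (hT : k ^ 2 * d + k * Fintype.card A + Fintype.card Γ ≤ Fintype.card T)
    (D : Finset ((N × Bool) ⊕ (Fin k × Bool × (A → T × F)))) (hD : D.card ≤ k) :
    ∃ I, Ind (gr (tab ev) k) I ∧ Disjoint I D ∧ Fintype.card N + k ≤ I.card := by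
  classical
  let M : Finset N := D.toLeft.image Prod.fst
  have hM : M.card ≤ k := card_image_le.trans (card_toLeft_le.trans hD)
  obtain ⟨U, hU, -, hUc⟩ := exists_subsuperset_card_eq (subset_univ M) hM hw
  let c : Fin k → N := fun i => ((equivFinOfCardEq hUc).symm i).1
  have hc : ∀ v b, .inl (v, b) ∈ D → ∃ i, c i = v := fun v b h =>
    ⟨equivFinOfCardEq hUc ⟨v, hU (mem_image.2 ⟨(v, b), by simpa using h, rfl⟩)⟩, by simp [c]⟩
  have hci : Function.Injective c := fun i j h =>
    (equivFinOfCardEq hUc).symm.injective (Subtype.ext h)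
  let B1 : Finset T := (univ : Finset (Fin k × Fin k)).biUnion fun p =>
    univ.filter fun τ => p.1 ≠ p.2 ∧ ev τ (c p.1) = ev τ (c p.2)
  let B2 : Finset T := D.toRight.biUnion fun y => univ.image fun a => (y.2.2 a).1
  have e1 : B1.card ≤ k ^ 2 * d := by
    refine (card_biUnion_le_card_mul _ _ d fun p _ => ?_).trans (by simp [sq])
    by_contra h
    push Not at h
    obtain ⟨τ, hτ⟩ := card_pos.1 ((Nat.zero_le _).trans_lt h)
    exact (mem_filter.1 hτ).2.1 (hci (hdet _ h.le _ _ fun τ hτ => (mem_filter.1 hτ).2.2))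
  have e2 : B2.card ≤ k * Fintype.card A :=
    (card_biUnion_le_card_mul _ _ (Fintype.card A) fun y _ => card_image_le).trans
      (Nat.mul_le_mul_right _ (card_toRight_le.trans hD))
  have e3 : Fintype.card Γ ≤ Fintype.card ((B1 ∪ B2)ᶜ : Finset T) := by
    have := card_union_le B1 B2
    rw [Fintype.card_coe, card_compl]
    omega
  obtain ⟨t⟩ := Function.Embedding.nonempty_of_card_le e3
  have sep : ∀ γ i j, ev (t γ).1 (c i) = ev (t γ).1 (c j) → i = j := by
    intro γ i j h
    by_contra h0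
    exact mem_compl.1 (t γ).2 (mem_union_left _ (mem_biUnion.2
      ⟨(i, j), mem_univ _, mem_filter.2 ⟨mem_univ _, h0, h⟩⟩))
  refine lower D c (fun i b a => ((t (pt i b a)).1, ev (t (pt i b a)).1 (c i)))
    (fun v h _ => hc v _ h) (fun i b a => rfl) ?_ ?_ ?_
  · intro i b h
    obtain ⟨a⟩ := ‹Nonempty A›
    exact mem_compl.1 (t (pt i b a)).2 (mem_union_right _ (mem_biUnion.2
      ⟨_, mem_toRight.2 h, mem_image.2 ⟨a, mem_univ _, rfl⟩⟩))
  · intro i b v b' h hv
    obtain ⟨j, rfl⟩ := hc v b' hv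
    obtain ⟨a⟩ := ‹Nonempty A›
    rw [sep _ _ _ (h a)]
  · intro i j v h h'
    have hij : i = j := by
      by_contra h0
      obtain ⟨a, a', e⟩ := hp2 i j h0
      have e4 := h a
      have e5 := h' a'
      simp only [← e] at e4 e5
      exact h0 (sep _ _ _ (e4.symm.trans e5))
    subst hij
    refine ⟨rfl, hdet ((univ.image (pt i false) ∪ univ.image (pt i true)).image
      fun γ => (t γ).1) ?_ _ _ ?_⟩
    · rw [card_image_of_injective _ fun γ γ' e => t.injective (Subtype.ext e)]
      exact hp1 i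
    · intro τ hτ
      obtain ⟨γ, hγ, rfl⟩ := mem_image.1 hτ
      rcases mem_union.1 hγ with hγ | hγ <;> obtain ⟨a, -, rfl⟩ := mem_image.1 hγ
      · exact (h a).symm
      · exact (h' a).symm

/-- Polynomials of degree below `2 k` over `ZMod q`, labels of length `k`. -/
theorem graphs (k q : ℕ) (hk : 1 ≤ k) [Fact q.Prime] (hq : 2 * k ^ 3 + 3 * k ^ 2 ≤ q) :
    ∃ (V : Type) (_ : Fintype V) (G : SimpleGraph V),
      Fintype.card V = 2 * q ^ (2 * k) + 2 * k * ((2 * k ^ 3 + 3 * k ^ 2) * q) ^ k ∧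
      ∀ S : Finset V, S.card ≤ k → (G.induce (S : Set V)ᶜ).indepNum = q ^ (2 * k) + k := by
  classical
  obtain ⟨e⟩ : Nonempty (Fin (2 * k ^ 3 + 3 * k ^ 2) ↪ ZMod q) :=
    Function.Embedding.nonempty_of_card_le (by simpa using hq)
  have : Nonempty (Fin k) := ⟨⟨0, hk⟩⟩
  let ev : Fin (2 * k ^ 3 + 3 * k ^ 2) → (Fin (2 * k) → ZMod q) → ZMod q := fun τ u =>
    (Polynomial.ofFn (2 * k) u).eval (e τ)
  let pt : Fin k → Bool → Fin k → Fin k × Fin k × Bool := fun i b a =>
    if b = true then (a, i, decide (a = i)) else (i, a, false)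
  refine ⟨_, inferInstance, gr (tab (A := Fin k) ev) k, by simp; ring, fun S hS => ?_⟩
  have hN : Fintype.card (Fin (2 * k) → ZMod q) = q ^ (2 * k) := by simp
  rw [← hN]
  refine le_antisymm ?_ ?_
  · obtain ⟨I, h1, h2, -⟩ := ex_del (gr (tab (A := Fin k) ev) k) S
    exact h2 ▸ upper h1
  · obtain ⟨I, h1, h2, h3⟩ := code ev (2 * k) k (fun B hB u v h =>
      Polynomial.injective_ofFn _ (Polynomial.eq_of_degrees_lt_of_eval_index_eq B
        e.injective.injOn ((Polynomial.ofFn_degree_lt u).trans_le (by exact_mod_cast hB))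
        ((Polynomial.ofFn_degree_lt v).trans_le (by exact_mod_cast hB)) h)) pt
      (fun i => by
        rw [card_union_of_disjoint, card_image_of_injective, card_image_of_injective]
        · simp [two_mul]
        · intro a a' h
          simpa [pt] using congrArg Prod.fst h
        · intro a a' h
          simpa [pt] using h
        · simp only [disjoint_left, mem_image, pt]
          rintro _ ⟨a, -, rfl⟩ ⟨a', -, h⟩
          simp at h
          exact h.2.2 h.1)
      (fun i j h => ⟨j, i, by simp [pt, h]⟩)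
      (by
        rw [hN]
        have : k ≤ k ^ 2 := Nat.le_self_pow two_ne_zero k
        exact le_trans (by omega) (Nat.le_self_pow (by omega) q))
      (by simp; nlinarith) S hS
    exact h3.trans (le_del h1 h2)

end Pool.Agent.Lib.MP_4d8c35_co.Slot
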